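import Mathlib
import Pool.Agent.Helper86.PN.Tool

/-!
# PN, LEAF S2: a rainbow row is impossible if `p` does not divide the number of elements
-/

set_option autoImplicit false

namespace Pool.Agent.Helper73.PN

open Pool.Agent.Helper92.SS
open Pool.Agent.Helper92.PU
open Pool.Agent.Helper48.PU
open Pool.Agent.Helper86.PN
open Pool.Agent.Helper73.PU (not_both sm_move inv_row)

section s2

variable {p n q m r : ℕ} {ca cl : ℤ × ℤ → ZMod r} {A L : Finset (ℤ × ℤ)}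
  {d0 e0 : ℤ} {c0 : ZMod r} {k b : ℕ} {a : ℤ × ℤ}

/-- The part of `L` in a `q`-digit. -/
def QA (q : ℕ) (L : Finset (ℤ × ℤ)) (e : ℤ) : Finset (ℤ × ℤ) := L.filter fun l => (q : ℤ) ∣ l.2 - e

theorem QA_col (h : RowP p n q m ca cl A L d0 e0 c0 k b a) {l : ℤ × ℤ}
    (hl : l ∈ QA q L (e0 + 1)) : cl l = c0 := by
  obtain ⟨h1, h2⟩ := Finset.mem_filter.1 hl
  by_contra hc
  exact not_both h.nk.hq (h.cen l h1 hc).2 h2

theorem QA_card (h : RowP p n q m ca cl A L d0 e0 c0 k b a) : (QA q L (e0 + 1)).card = k := by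
  refine h.ck (e0 + 1) ?_
  intro h1
  have e : e0 + 1 - e0 = 1 := by ring
  rw [e] at h1
  exact (Nat.prime_iff_prime_int.1 h.nk.hq).not_isUnit (isUnit_of_dvd_one h1)

theorem QA_kl (h : RowP p n q m ca cl A L d0 e0 c0 k b a) :
    ((kl cl L c0).filter fun l => (q : ℤ) ∣ l.2 - (e0 + 1)) = QA q L (e0 + 1) := by
  ext l
  unfold QA
  rw [Finset.mem_filter, Finset.mem_filter, mem_kl]
  constructor
  · exact fun h1 => ⟨h1.1.1, h1.2⟩
  · exact fun h1 => ⟨⟨h1.1, QA_col h (Finset.mem_filter.2 h1)⟩, h1.2⟩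

theorem QA_kl0 (h : RowP p n q m ca cl A L d0 e0 c0 k b a) {c : ZMod r} (hc : c ≠ c0) :
    ((kl cl L c).filter fun l => (q : ℤ) ∣ l.2 - (e0 + 1)) = ∅ := by
  rw [Finset.filter_eq_empty_iff]
  intro l hl h1
  obtain ⟨h2, h3⟩ := mem_kl.1 hl
  exact not_both h.nk.hq (h.cen l h2 (by rw [h3]; exact hc)).2 h1

theorem ex_col (h : RowP p n q m ca cl A L d0 e0 c0 k b a) : ∃ c : ZMod r, c ≠ c0 := by
  have h3 := h.nk.r3
  have : Nontrivial (ZMod r) := ZMod.nontrivial_iff.2 (by omega)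
  exact exists_ne c0

/-- Case A: the colour of `a'` does not occur in the row of `a`. -/
theorem claimA (h : RowP p n q m ca cl A L d0 e0 c0 k b a) {a' : ℤ × ℤ} (ha' : a' ∈ A)
    (hN : ∀ x ∈ A, (p : ℤ) ^ (n + 1) ∣ x.1 - a.1 → (q : ℤ) ^ m ∣ x.2 - a.2 → ca x ≠ ca a') :
    sm p (n + 1) q (m + 1) (QA q L (e0 + 1)) (a - a') = 0 := by
  obtain ⟨c, hc⟩ := ex_col h
  have h1 : ∀ t : ℤ, sm p (n + 1) q (m + 1) (kl cl L c0)
      ((a - a').1, (a - a').2 + t * (q : ℤ) ^ m) =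
      sm p (n + 1) q (m + 1) (kl cl L c) ((a - a').1, (a - a').2 + t * (q : ℤ) ^ m) := by
    intro t
    obtain ⟨x, hx, hx1, hx2⟩ := h.line t
    have hxr : (q : ℤ) ^ m ∣ x.2 - a.2 := by
      have e : x.2 - a.2 = (x.2 - (a.2 + t * (q : ℤ) ^ m)) + t * (q : ℤ) ^ m := by ring
      rw [e]
      exact dvd_add ((pow_dvd_pow _ (Nat.le_succ m)).trans hx2) (dvd_mul_left _ _)
    have e := h.nk.cp.a.2 x hx a' ha' (hN x hx hx1 hxr) c0 c
    have e2 : ∀ S : Finset (ℤ × ℤ), sm p (n + 1) q (m + 1) S (x - a') =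
        sm p (n + 1) q (m + 1) S ((a - a').1, (a - a').2 + t * (q : ℤ) ^ m) := by
      intro S
      unfold sm
      refine Finset.sum_congr rfl fun l _ => ?_
      refine ch_congr h.nk.hp.pos h.nk.hq.pos (by simp) (by simp) ?_ ?_
      · rw [Prod.fst_sub]
        simp only [Prod.fst_sub]
        have e3 : x.1 - a'.1 - (a.1 - a'.1) = x.1 - a.1 := by ring
        rw [e3]
        exact hx1
      · rw [Prod.snd_sub]
        simp only [Prod.snd_sub]
        have e3 : x.2 - a'.2 - (a.2 - a'.2 + t * (q : ℤ) ^ m) =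
            x.2 - (a.2 + t * (q : ℤ) ^ m) := by ring
        rw [e3]
        exact hx2
    rw [← e2, ← e2]
    exact e
  have h2 := inv_eq (p := p) (n := n) (m := m) h.nk.hq.pos (S := kl cl L c0) (S' := kl cl L c)
    (g := a - a') (e0 + 1) h1
  rw [QA_kl h, QA_kl0 h hc] at h2
  rw [h2]
  unfold sm
  exact Finset.sum_empty

/-- The shift inside the row. -/
theorem move_x (h : RowP p n q m ca cl A L d0 e0 c0 k b a) {a' x : ℤ × ℤ}
    (h1 : (p : ℤ) ^ (n + 1) ∣ x.1 - a.1) (h2 : (q : ℤ) ^ m ∣ x.2 - a.2)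
    (h3 : sm p (n + 1) q (m + 1) (QA q L (e0 + 1)) (x - a') = 0) :
    sm p (n + 1) q (m + 1) (QA q L (e0 + 1)) (a - a') = 0 := by
  obtain ⟨s, hs⟩ := h2
  rw [sm_move (p := p) (N := n + 1) (m := m) (S := QA q L (e0 + 1)) (e := e0 + 1) h.nk.hp.pos
    h.nk.hq.pos (fun l hl => (Finset.mem_filter.1 hl).2) (g := x - a') (g' := a - a') (s := -s),
    h3, mul_zero]
  · have e : (a - a').1 - (x - a').1 = -(x.1 - a.1) := by
      rw [Prod.fst_sub, Prod.fst_sub]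
      ring
    rw [e, dvd_neg]
    exact h1
  · have e : (a - a').2 - ((x - a').2 + -s * (q : ℤ) ^ m) = -(x.2 - a.2 - (q : ℤ) ^ m * s) := by
      rw [Prod.snd_sub, Prod.snd_sub]
      ring
    rw [e, hs, sub_self, neg_zero]
    exact dvd_zero _

/-- Case B (i). -/
theorem claimB1 (h : RowP p n q m ca cl A L d0 e0 c0 k b a) {a' x : ℤ × ℤ} (ha' : a' ∈ A)
    (hx : x ∈ A) (h1 : (p : ℤ) ^ (n + 1) ∣ x.1 - a.1) (h2 : (q : ℤ) ^ m ∣ x.2 - a.2)
    (hc : ca x = ca a') (hd : ¬ (q : ℤ) ^ m ∣ x.2 - a'.2) :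
    sm p (n + 1) q (m + 1) (QA q L (e0 + 1)) (a - a') = 0 := by
  refine move_x h h1 h2 ?_
  have hne : x ≠ a' := by
    rintro rfl
    exact hd (by simp)
  have e := h.nk.cp.a.1 x hx a' ha' hne hc
  rw [← ws_one] at e
  have e2 := ws_res2 h.nk.hp h.nk.hq h.nk.pq (j := 1) (Nat.succ_le_succ (Nat.zero_le m))
    (d := x - a') (by rw [Nat.succ_sub_one]; exact hd) e (e0 + 1)
  rw [ws_one, pow_one] at e2
  exact e2

/-- `p` divides `q * k`, if two points of different colours differ by a pure `p`-type. -/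
theorem pqk (h : RowP p n q m ca cl A L d0 e0 c0 k b a) {a' x : ℤ × ℤ} (ha' : a' ∈ A)
    (hx : x ∈ A) (hc : ca x ≠ ca a') (h1 : ¬ (p : ℤ) ^ (n + 1) ∣ (x - a').1)
    (h2 : (q : ℤ) ^ (m + 1) ∣ (x - a').2) : (p : ℤ) ∣ (q : ℤ) * k := by
  have : NeZero r := ⟨h.nk.hr.pos.ne'⟩
  have h3 : ∀ y : ZMod r, (p : ℤ) ∣ ((kl cl L y).card : ℤ) - b := by
    intro y
    by_cases hy : y = c0
    · subst hy
      obtain ⟨c, hc'⟩ := ex_col h
      have e : ws p (n + 1) q (m + 1) L (wd cl y c) (x - a') = 0 := by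
        rw [ws_wd, h.nk.cp.a.2 x hx a' ha' hc y c, sub_self]
      have e2 := t1 h.nk.hp h.nk.hq h.nk.pq h1 h2 e
      have e3 : ∑ l ∈ L, wd cl y c l = ((kl cl L y).card : ℤ) - ((kl cl L c).card : ℤ) := by
        unfold wd kl
        rw [Finset.sum_sub_distrib, Finset.sum_boole, Finset.sum_boole]
      rw [e3, h.cb c hc'] at e2
      exact e2
    · rw [h.cb y hy, sub_self]
      exact dvd_zero _
  have h4 : (p : ℤ) ∣ ∑ y : ZMod r, (((kl cl L y).card : ℤ) - b) :=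
    Finset.dvd_sum fun y _ => h3 y
  rw [Finset.sum_sub_distrib, Finset.sum_const, Finset.card_univ, ZMod.card, nsmul_eq_mul] at h4
  have h5 : ∑ y : ZMod r, ((kl cl L y).card : ℤ) = (L.card : ℤ) := by
    exact_mod_cast card_kl cl L
  rw [h5, ← h.nk.cp.card, h.eq] at h4
  push_cast at h4
  have e : (q : ℤ) * k + r * b - r * b = q * k := by ring
  rwa [e] at h4

/-- A zero of the type `(i, m)`: the parts in the `q`-digits have the same number of elements modulo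
`p`. -/
theorem digit_eq (h : RowP p n q m ca cl A L d0 e0 c0 k b a) {a' x : ℤ × ℤ} (ha' : a' ∈ A)
    (hx : x ∈ A) (hc : ca x = ca a') (h1 : ¬ (p : ℤ) ^ (n + 1) ∣ x.1 - a'.1)
    (h2 : (q : ℤ) ^ m ∣ x.2 - a'.2) : (p : ℤ) ∣ (A.card : ℤ) - q * k := by
  have hq0 : ((q : ℤ) ^ m) ≠ 0 := pow_ne_zero _ (by exact_mod_cast h.nk.hq.pos.ne')
  have hqc : (q : ℂ) ≠ 0 := by exact_mod_cast h.nk.hq.pos.ne'
  have hne : x ≠ a' := by
    rintro rfl
    exact h1 (by simp)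
  have h3 := F0 h.nk hx ha' hne hc
  have h4 : ∀ t : ℤ, ¬ (q : ℤ) ∣ t →
      sm p (n + 1) q (m + 1) L (x.1 - a'.1, t * (q : ℤ) ^ m) = 0 := by
    intro t ht
    refine same_ty h.nk hx ha' hne hc (fun i _ => ?_) (fun j hj => ?_)
    · rw [Prod.fst_sub]
    · rw [Prod.snd_sub]
      simp only
      rcases Nat.lt_or_ge m j with hmj | hmj
      · have hj' : j = m + 1 := by omega
        rw [hj', pow_succ, mul_comm t, mul_dvd_mul_iff_left hq0]
        rw [pow_succ] at h3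
        exact ⟨fun h5 => absurd h5 h3, fun h5 => absurd h5 ht⟩
      · have e3 := pow_dvd_pow (q : ℤ) hmj
        exact ⟨fun _ => e3.mul_left _, fun _ => e3.trans h2⟩
  have h5 : ∀ e : ℤ, (q : ℂ) * sm p (n + 1) q (m + 1) (QA q L e) (x.1 - a'.1, 0) =
      sm p (n + 1) q (m + 1) L (x.1 - a'.1, 0) := by
    intro e
    have e1 := inv_row (p := p) (N := n + 1) (m := m) h.nk.hq.pos L e (x.1 - a'.1, 0)
    unfold QA
    rw [e1, Finset.sum_eq_single 0]
    · simp [ec_zero]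
    · intro t ht ht0
      simp only [zero_add]
      rw [h4 (t : ℤ), mul_zero]
      intro h6
      have h7 : q ∣ t := by exact_mod_cast h6
      exact absurd (Nat.le_of_dvd (Nat.pos_of_ne_zero ht0) h7) (not_le.2 (Finset.mem_range.1 ht))
    · intro h0
      exact absurd (Finset.mem_range.2 h.nk.hq.pos) h0
  have h6 : ∀ e : ℤ, (p : ℤ) ∣ (c2 L q e : ℤ) - k := by
    intro e
    have e1 : ws p (n + 1) q (m + 1) L (fun l => (if (q : ℤ) ∣ l.2 - e then 1 else 0) -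
        (if (q : ℤ) ∣ l.2 - (e0 + 1) then 1 else 0)) (x.1 - a'.1, 0) = 0 := by
      have e2 : ws p (n + 1) q (m + 1) L (fun l => (if (q : ℤ) ∣ l.2 - e then 1 else 0) -
          (if (q : ℤ) ∣ l.2 - (e0 + 1) then 1 else 0)) (x.1 - a'.1, 0) =
          sm p (n + 1) q (m + 1) (QA q L e) (x.1 - a'.1, 0) -
          sm p (n + 1) q (m + 1) (QA q L (e0 + 1)) (x.1 - a'.1, 0) := by
        unfold ws sm QA
        rw [Finset.sum_filter, Finset.sum_filter, ← Finset.sum_sub_distrib]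
        refine Finset.sum_congr rfl fun l _ => ?_
        by_cases u1 : (q : ℤ) ∣ l.2 - e <;> by_cases u2 : (q : ℤ) ∣ l.2 - (e0 + 1) <;>
          simp [u1, u2]
      rw [e2]
      have e3 := (h5 e).trans (h5 (e0 + 1)).symm
      rw [mul_left_cancel₀ hqc e3, sub_self]
    have e4 := t1 h.nk.hp h.nk.hq h.nk.pq (d := (x.1 - a'.1, 0)) h1 (dvd_zero _) e1
    rw [Finset.sum_sub_distrib, Finset.sum_boole, Finset.sum_boole] at e4
    have e5 := QA_card h
    unfold QA at e5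
    rw [e5] at e4
    exact e4
  have h7 : (p : ℤ) ∣ ∑ j ∈ Finset.range q, ((c2 L q (j : ℤ) : ℤ) - k) :=
    Finset.dvd_sum fun j _ => h6 j
  rw [Finset.sum_sub_distrib, Finset.sum_const, Finset.card_range, nsmul_eq_mul] at h7
  have h8 : ∑ j ∈ Finset.range q, (c2 L q (j : ℤ) : ℤ) = (A.card : ℤ) := by
    rw [h.nk.cp.card]
    exact_mod_cast card_sum2 h.nk.hq.pos L
  rwa [h8] at h7

/-- Case B (ii) is impossible. -/
theorem claimB2 (h : RowP p n q m ca cl A L d0 e0 c0 k b a) {a' x : ℤ × ℤ} (ha' : a' ∈ A)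
    (hx : x ∈ A) (h1 : (p : ℤ) ^ (n + 1) ∣ x.1 - a.1) (h2 : (q : ℤ) ^ m ∣ x.2 - a.2)
    (hc : ca x = ca a') (hd : (q : ℤ) ^ m ∣ x.2 - a'.2) (hn : ¬ (p : ℤ) ^ (n + 1) ∣ a.1 - a'.1) :
    False := by
  -- the point of the row with the same second coordinate
  have h3 : (q : ℤ) ^ m ∣ a'.2 - a.2 := by
    have e : a'.2 - a.2 = (x.2 - a.2) - (x.2 - a'.2) := by ring
    rw [e]
    exact dvd_sub h2 hd
  obtain ⟨t, ht⟩ := h3
  obtain ⟨y, hy, hy1, hy2⟩ := h.line t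
  have hy3 : (q : ℤ) ^ (m + 1) ∣ y.2 - a'.2 := by
    have e : y.2 - a'.2 = (y.2 - (a.2 + t * (q : ℤ) ^ m)) - ((a'.2 - a.2) - (q : ℤ) ^ m * t) := by
      ring
    rw [e, ht, sub_self, sub_zero]
    exact hy2
  have hz : ∀ z : ℤ × ℤ, (p : ℤ) ^ (n + 1) ∣ z.1 - a.1 → ¬ (p : ℤ) ^ (n + 1) ∣ z.1 - a'.1 := by
    intro z hz1 h5
    apply hn
    have e : a.1 - a'.1 = (z.1 - a'.1) - (z.1 - a.1) := by ring
    rw [e]
    exact dvd_sub h5 hz1
  have hcy : ca y ≠ ca a' := by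
    intro h5
    refine F0 h.nk hy ha' ?_ h5 hy3
    rintro rfl
    exact hz _ hy1 (by simp)
  have hk := pqk h ha' hy hcy (by rw [Prod.fst_sub]; exact hz _ hy1)
    (by rw [Prod.snd_sub]; exact hy3)
  have hk2 := digit_eq h ha' hx hc (hz _ h1) hd
  have h5 := dvd_add hk2 hk
  rw [sub_add_cancel] at h5
  exact h.nk.pK (by exact_mod_cast h5)

/-- The claim. -/
theorem claim (h : RowP p n q m ca cl A L d0 e0 c0 k b a) {a' : ℤ × ℤ} (ha' : a' ∈ A)
    (hn : ¬ ((p : ℤ) ^ (n + 1) ∣ a'.1 - a.1 ∧ (q : ℤ) ^ m ∣ a'.2 - a.2)) :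
    sm p (n + 1) q (m + 1) (QA q L (e0 + 1)) (a - a') = 0 := by
  by_cases hN : ∀ x ∈ A, (p : ℤ) ^ (n + 1) ∣ x.1 - a.1 → (q : ℤ) ^ m ∣ x.2 - a.2 → ca x ≠ ca a'
  · exact claimA h ha' hN
  push Not at hN
  obtain ⟨x, hx, h1, h2, hc⟩ := hN
  by_cases hd : (q : ℤ) ^ m ∣ x.2 - a'.2
  · exfalso
    refine claimB2 h ha' hx h1 h2 hc hd ?_
    intro h3
    apply hn
    refine ⟨?_, ?_⟩
    · have e : a'.1 - a.1 = -(a.1 - a'.1) := by ring
      rw [e, dvd_neg]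
      exact h3
    · have e : a'.2 - a.2 = (x.2 - a.2) - (x.2 - a'.2) := by ring
      rw [e]
      exact dvd_sub h2 hd
  · exact claimB1 h ha' hx h1 h2 hc hd

/-- The number of points of the row. -/
theorem row_le (h : RowP p n q m ca cl A L d0 e0 c0 k b a) :
    (A.filter fun x => (p : ℤ) ^ (n + 1) ∣ x.1 - a.1 ∧ (q : ℤ) ^ m ∣ x.2 - a.2).card ≤ q := by
  set S := A.filter fun x => (p : ℤ) ^ (n + 1) ∣ x.1 - a.1 with hS
  have h1 : (A.filter fun x => (p : ℤ) ^ (n + 1) ∣ x.1 - a.1 ∧ (q : ℤ) ^ m ∣ x.2 - a.2).card =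
      c2 S (q ^ m) a.2 := by
    unfold c2
    rw [hS, Finset.filter_filter, Nat.cast_pow]
  rw [h1, c2_split h.nk.hq.pos]
  have h2 : ∀ s ∈ Finset.range q, c2 S (q ^ (m + 1)) (a.2 + (s : ℤ) * (q : ℤ) ^ m) ≤ 1 := by
    intro s _
    unfold c2
    rw [Finset.card_le_one]
    intro x hx y hy
    rw [Finset.mem_filter, hS, Finset.mem_filter, Nat.cast_pow] at hx hy
    refine h.inj x hx.1.1 y hy.1.1 ?_ ?_
    · have := dvd_sub hx.1.2 hy.1.2
      rwa [sub_sub_sub_cancel_right] at this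
    · have := dvd_sub hx.2 hy.2
      rwa [sub_sub_sub_cancel_right] at this
  refine (Finset.sum_le_sum h2).trans ?_
  rw [Finset.sum_const, Finset.card_range, smul_eq_mul, mul_one]

/-- The terms of the trace identity in the row. -/
theorem row_term (h : RowP p n q m ca cl A L d0 e0 c0 k b a) {x : ℤ × ℤ}
    (h1 : (p : ℤ) ^ (n + 1) ∣ x.1 - a.1) (h2 : (q : ℤ) ^ m ∣ x.2 - a.2) :
    sm p (n + 1) q (m + 1) (QA q L (e0 + 1)) (a - x) *
      sm p (n + 1) q (m + 1) (QA q L (e0 + 1)) (x - a) = (k : ℂ) * k := by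
  obtain ⟨s, hs⟩ := h2
  have h0 : sm p (n + 1) q (m + 1) (QA q L (e0 + 1)) (0 : ℤ × ℤ) = (k : ℂ) := by
    have e : ∀ l ∈ QA q L (e0 + 1), ch p (n + 1) q (m + 1) l (0 : ℤ × ℤ) = 1 := by
      intro l _
      unfold ch
      simp [ec_zero]
    unfold sm
    rw [Finset.sum_congr rfl e, Finset.sum_const, QA_card h, nsmul_eq_mul, mul_one]
  have hS : ∀ l ∈ QA q L (e0 + 1), (q : ℤ) ∣ l.2 - (e0 + 1) :=
    fun l hl => (Finset.mem_filter.1 hl).2
  have e1 := sm_move (p := p) (N := n + 1) (m := m) h.nk.hp.pos h.nk.hq.pos hS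
    (g := (0 : ℤ × ℤ)) (g' := a - x) (s := -s) (by
      have e : (a - x).1 - (0 : ℤ × ℤ).1 = -(x.1 - a.1) := by
        rw [Prod.fst_sub, Prod.fst_zero]
        ring
      rw [e, dvd_neg]
      exact h1) (by
      have e : (a - x).2 - ((0 : ℤ × ℤ).2 + -s * (q : ℤ) ^ m) = -(x.2 - a.2 - (q : ℤ) ^ m * s) := by
        rw [Prod.snd_sub, Prod.snd_zero]
        ring
      rw [e, hs, sub_self, neg_zero]
      exact dvd_zero _)
  have e2 := sm_move (p := p) (N := n + 1) (m := m) h.nk.hp.pos h.nk.hq.pos hS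
    (g := (0 : ℤ × ℤ)) (g' := x - a) (s := s) (by
      have e : (x - a).1 - (0 : ℤ × ℤ).1 = x.1 - a.1 := by
        rw [Prod.fst_sub, Prod.fst_zero]
        ring
      rw [e]
      exact h1) (by
      have e : (x - a).2 - ((0 : ℤ × ℤ).2 + s * (q : ℤ) ^ m) = x.2 - a.2 - (q : ℤ) ^ m * s := by
        rw [Prod.snd_sub, Prod.snd_zero]
        ring
      rw [e, hs, sub_self]
      exact dvd_zero _)
  rw [e1, e2, h0]
  have e3 : ec q (-s * (e0 + 1)) * ec q (s * (e0 + 1)) = 1 := by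
    rw [← ec_add]
    have e : -s * (e0 + 1) + s * (e0 + 1) = 0 := by ring
    rw [e, ec_zero]
  calc ec q (-s * (e0 + 1)) * (k : ℂ) * (ec q (s * (e0 + 1)) * (k : ℂ))
      = (ec q (-s * (e0 + 1)) * ec q (s * (e0 + 1))) * ((k : ℂ) * k) := by ring
    _ = (k : ℂ) * k := by rw [e3, one_mul]

end s2

theorem leafS2 : LeafS2 := by
  intro p n q m r ca cl A L d0 e0 c0 k b a h
  have h1 := pars (p := p) (n := n + 1) (q := q) (m := m + 1) (A := A) (S := QA q L (e0 + 1))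
    (fun l hl l' hl' hne => h.nk.cp.l.1 l (Finset.mem_filter.1 hl).1 l' (Finset.mem_filter.1 hl').1
      hne ((QA_col h hl).trans (QA_col h hl').symm)) a
  rw [QA_card h, ← Finset.sum_filter_add_sum_filter_not A
    (fun x => (p : ℤ) ^ (n + 1) ∣ x.1 - a.1 ∧ (q : ℤ) ^ m ∣ x.2 - a.2)] at h1
  have h2 : ∑ x ∈ A with ¬ ((p : ℤ) ^ (n + 1) ∣ x.1 - a.1 ∧ (q : ℤ) ^ m ∣ x.2 - a.2),
      sm p (n + 1) q (m + 1) (QA q L (e0 + 1)) (a - x) *
      sm p (n + 1) q (m + 1) (QA q L (e0 + 1)) (x - a) = 0 := by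
    refine Finset.sum_eq_zero fun x hx => ?_
    obtain ⟨hx1, hx2⟩ := Finset.mem_filter.1 hx
    rw [claim h hx1 hx2, zero_mul]
  have h3 : ∀ x ∈ A.filter (fun x => (p : ℤ) ^ (n + 1) ∣ x.1 - a.1 ∧ (q : ℤ) ^ m ∣ x.2 - a.2),
      sm p (n + 1) q (m + 1) (QA q L (e0 + 1)) (a - x) *
      sm p (n + 1) q (m + 1) (QA q L (e0 + 1)) (x - a) = (k : ℂ) * k := by
    intro x hx
    obtain ⟨_, hx1, hx2⟩ := Finset.mem_filter.1 hx
    exact row_term h hx1 hx2
  rw [h2, add_zero, Finset.sum_congr rfl h3, Finset.sum_const, nsmul_eq_mul] at h1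
  have h4 : (A.filter fun x => (p : ℤ) ^ (n + 1) ∣ x.1 - a.1 ∧ (q : ℤ) ^ m ∣ x.2 - a.2).card *
      (k * k) = A.card * k := by exact_mod_cast h1
  have h5 := row_le h
  have h6 := h.eq
  have hk := h.kpos
  have hb := h.bpos
  have hr := h.nk.hr.pos
  have h7 : (A.filter fun x => (p : ℤ) ^ (n + 1) ∣ x.1 - a.1 ∧ (q : ℤ) ^ m ∣ x.2 - a.2).card *
      (k * k) ≤ q * (k * k) := Nat.mul_le_mul_right _ h5
  rw [h4, h6] at h7
  have h8 : 0 < r * b * k := Nat.mul_pos (Nat.mul_pos hr hb) hk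
  have h9 : (q * k + r * b) * k = q * (k * k) + r * b * k := by ring
  omega

end Pool.Agent.Helper73.PN
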